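import Pool.Agent.W_bb8127_h4.Check

/-! MP_bb8127_co: a neighborly family of 24 triangular prisms. -/

namespace Pool.Agent.Results.MP_bb8127_co.TwentyFour

open PrismFam

theorem result : ∃ P : Fin 24 → Set E3, (∀ i, IsPrism (P i)) ∧ Neighborly P := by
  refine ⟨fun i => convexHull ℝ (Set.range fun v => pt (vd i v)), ?_, ?_⟩
  · intro i
    exact isPrism_of (ok_data (all_prisms i)) (interior_of_data (ok_data (all_prisms i)))
  · have key : ∀ i j : Fin 24, i < j →
        Disjoint (interior (convexHull ℝ (Set.range fun v => pt (vd i v))))
          (interior (convexHull ℝ (Set.range fun v => pt (vd j v)))) ∧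
        0 < MeasureTheory.Measure.hausdorffMeasure 2
          (convexHull ℝ (Set.range fun v => pt (vd i v)) ∩
            convexHull ℝ (Set.range fun v => pt (vd j v))) := fun i j hij =>
      ok_pair (all_prisms i) (all_prisms j).1 _ (all_pairs i j hij)
    intro i j hij
    rcases lt_or_gt_of_ne hij with h | h
    · exact key i j h
    · obtain ⟨h1, h2⟩ := key j i h
      refine ⟨h1.symm, ?_⟩
      rw [Set.inter_comm]
      exact h2

end Pool.Agent.Results.MP_bb8127_co.TwentyFour
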