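import Pool.Agent.W_bb8127_h82.Main

/-! MP_bb8127_co: neighborly families of polytopes with at most `k` facets in dimension `d`
have at most `2 ^ k - (d + 1)` members; in particular there are at most 28 neighborly prisms. -/

set_option autoImplicit false

namespace Pool.Agent.Results.MP_bb8127_co.UpperBound

open Pool.Agent.W_bb8127_h82

/-- Any neighborly family of `d`-dimensional polytopes with at most `k` facets has at most
`2 ^ k - (d + 1)` members.  The second part is the case `d = 3`, `k = 5`, which contains all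
families of prisms. -/
theorem result :
    (∀ d k n : ℕ, 1 ≤ d → 1 ≤ n → ∀ P : Fin n → Set (EuclideanSpace ℝ (Fin d)),
      (∀ i, PolytopeLE d k (P i)) → Neighborly d P → n + (d + 1) ≤ 2 ^ k) ∧
    (∀ n : ℕ, ∀ P : Fin n → Set (EuclideanSpace ℝ (Fin 3)),
      (∀ i, PolytopeLE 3 5 (P i)) → Neighborly 3 P → n ≤ 28) := by
  have h : ∀ d k n : ℕ, 1 ≤ d → 1 ≤ n → ∀ P : Fin n → Set (EuclideanSpace ℝ (Fin d)),
      (∀ i, PolytopeLE d k (P i)) → Neighborly d P → n + (d + 1) ≤ 2 ^ k :=
    fun d k n hd hn P hP hN => bound hd hn P hP hN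
  refine ⟨h, fun n P hP hN => ?_⟩
  rcases Nat.eq_zero_or_pos n with h0 | h0
  · omega
  · have := h 3 5 n (by norm_num) h0 P hP hN
    norm_num at this
    omega

end Pool.Agent.Results.MP_bb8127_co.UpperBound
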